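import Pool.Agent.Y731.CM.Low
import Pool.Agent.Y731.CM.Up

/-!
# The maximal reciprocal sum of an irreducible covering set: sharper constants

`Pool.Agent.Results.MP_cc5630_nt.Theta` defines irreducible covering sets and the maximal
reciprocal sum `M k`, and proves `M k = Θ(log k)` (with the constants `1 / 12` and `2`).  Here:

`1 / 2 ≤ liminf M k / log k` and `limsup M k / log k ≤ 3 / 2 - log 2 = 0.8068...`.

Lower bound: the classes `q ^ (i + 1) * (j + 1)`, `q < X` prime, `i < e q`, `j < q - 1`, with
exponents only as large as needed (`X ≤ 2 ^ e q`), so that `k` is about `X ^ 2` up to a logarithm,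
and Mertens' first theorem.  Upper bound: the primes dividing some element satisfy
`∑ (p - 1) < k` (Simpson; here with Hall's theorem), so that up to `O(1)` only integers `n ≤ k`
without prime factors above `√k` (up to `k ^ ε`) contribute; the rest is partial summation.
-/

set_option autoImplicit false

namespace Pool.Agent.Results.MP_cc5630_nt.SharperConstants

open Pool.Agent.Results.MP_cc5630_nt.Theta

/-- **`(1 / 2 - ε) log k ≤ M k ≤ (3 / 2 - log 2 + ε) log k` for all large `k`**, for every
`ε > 0`. -/
theorem result :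
    (∀ c : ℝ, c < 1 / 2 → ∃ K : ℕ, ∀ k : ℕ, K ≤ k → c * Real.log k ≤ M k) ∧
    (∀ C : ℝ, 3 / 2 - Real.log 2 < C → ∃ K : ℕ, ∀ k : ℕ, K ≤ k → M k ≤ C * Real.log k) :=
  ⟨Pool.Agent.Y731.CM.lower_asymp, Pool.Agent.Y731.CM.upper_asymp⟩

end Pool.Agent.Results.MP_cc5630_nt.SharperConstants
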